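import Pool.Agent.N922.PZ.Stm
import Pool.Agent.N896.PQ.Sh7

/-!
# Descent at one place (helper832, project PZ of helper922)
-/

set_option autoImplicit false
set_option linter.all false

open Polynomial

namespace Pool.Agent.N832.PZ

open Pool.Agent.Y723.HJ (CR OddM HF clmap mapR CC mi bar nm cl exists_restrict)
open Pool.Agent.N783.PQ (pol fol Jac jmap act QB GQ fol_map instOddM)
open Pool.Agent.N922.PZ

/-- an embedding of the algebraic numbers -/
lemma exists_emb (K : Type) [Field K] [Algebra ℚ K] : Nonempty (QB →ₐ[ℚ] AlgebraicClosure K) := by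
  haveI := Pool.Agent.N896.PQ.galQB
  haveI : Algebra.IsAlgebraic ℚ QB := inferInstance
  exact ⟨IsAlgClosed.lift⟩

lemma exists_res (K : Type) [Field K] [Algebra ℚ K] (ι : QB →ₐ[ℚ] AlgebraicClosure K)
    (τ : AlgebraicClosure K ≃ₐ[K] AlgebraicClosure K) : ∃ σ : GQ, ∀ x : QB, τ (ι x) = ι (σ x) := by
  haveI := Pool.Agent.N896.PQ.galQB
  exact exists_restrict ι τ

/-- separability over one field of characteristic zero gives it over every other one -/
lemma hf_all {g : ℕ} {a : Fin (2 * g) → ℤ} {L : Type} [Field L] [CharZero L] (h : HF (fol a L))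
    (L' : Type) [Field L'] [CharZero L'] : HF (fol a L') := by
  have h1 : (fol a ℚ).Separable := by
    have h2 : ((fol a ℚ).map (Rat.castHom L)).Separable := by
      rw [fol_map]
      exact h.sep
    exact (Polynomial.separable_map (Rat.castHom L)).1 h2
  exact
    { toOddM := instOddM a L'
      sep := by
        have h3 := h1.map (f := Rat.castHom L')
        rwa [fol_map] at h3
      two := two_ne_zero }

/-- the main case, for abstract fields -/
lemma key {g : ℕ} (a : Fin (2 * g) → ℤ) (Q A : Type) [Field Q] [Field A] [CharZero Q] [CharZero A]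
    [HF (fol a Q)] [HF (fol a A)] (ι : Q →+* A) (τ : A →+* A) (σ : Q →+* Q)
    (hσ : ∀ x, τ (ι x) = ι (σ x)) (T : Jac a Q) (R : Jac a A)
    (h1 : jmap a ι (jmap a σ T - T) = jmap a τ R - R) :
    jmap a τ (R - jmap a ι T) = R - jmap a ι T := by
  have h2 := Pool.Agent.N896.PQ.jmap_sq (a := a) σ ι ι τ (fun x => (hσ x).symm) T
  have h3 : jmap a ι (jmap a σ T - T) = jmap a τ (jmap a ι T) - jmap a ι T := by
    rw [map_sub, h2]
  have h4 : jmap a τ (jmap a ι T) - jmap a ι T = jmap a τ R - R := h3.symm.trans h1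
  rw [map_sub]
  rw [sub_eq_sub_iff_add_eq_add] at h4 ⊢
  rw [← h4]
  exact add_comm _ _

/-- **Descent at one place.** -/
theorem des : S_DES := by
  intro g a n K _ _ _ T P hT hP
  haveI hcQ : CharZero QB := Pool.Agent.N896.PQ.charQB
  haveI : CharZero (AlgebraicClosure K) := charZero_of_injective_algebraMap
    (algebraMap K (AlgebraicClosure K)).injective
  by_cases hHF : HF (fol a (AlgebraicClosure K))
  · haveI := hHF
    haveI : HF (fol a QB) := hf_all hHF QB
    obtain ⟨ι⟩ := exists_emb K
    obtain ⟨R, hR, hR'⟩ := hP ι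
    refine ⟨R - jmap a (ι : QB →+* AlgebraicClosure K) T, ?_, ?_⟩
    · rw [nsmul_sub, hR, ← map_nsmul, hT, map_zero, sub_zero]
    · intro τ
      obtain ⟨σ, hσ⟩ := exists_res K ι τ
      exact key a QB (AlgebraicClosure K) (ι : QB →+* AlgebraicClosure K)
        (τ : AlgebraicClosure K →+* AlgebraicClosure K) (σ : QB →+* QB) hσ T R (hR' τ σ hσ)
  · refine ⟨0, ?_, fun τ => map_zero _⟩
    rw [smul_zero]
    rcases P with _ | ⟨x, y⟩
    · rfl
    · show 0 = ptCls a (AlgebraicClosure K) _ _
      unfold ptCls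
      rw [dif_neg hHF]

end Pool.Agent.N832.PZ
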